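import Pool.Agent.SavChen.Final

/-!
# Long zero-sum sequences over `ZMod m` split into many blocks

A generalisation of the theorem of Savchev and Chen: a zero-sum sequence of length at least
`(q - 2) m + ⌊m / 2⌋ + 2` splits into at least `q` zero-sum blocks unless it consists of multiples
of a unit with sum less than `q m`.
-/

open Finset

namespace Pool.Agent.SavChen

variable {m : ℕ} [NeZero m] {J : Type*} [DecidableEq J]

set_option linter.unusedSectionVars false

/-- The sequence splits into at least `q` zero-sum blocks. -/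
def Splits (a : J → ZMod m) (S : Finset J) (q : ℕ) : Prop :=
  ∃ (e : ℕ) (b : J → ℕ), q ≤ e ∧ (∀ j ∈ S, b j < e) ∧ (∀ i < e, ∃ j ∈ S, b j = i) ∧
      ∀ i < e, ∑ j ∈ S with b j = i, a j = 0

theorem Splits.mono {a : J → ZMod m} {S : Finset J} {q q' : ℕ} (h : Splits a S q) (hq : q' ≤ q) :
    Splits a S q' := by
  obtain ⟨e, b, h1, h2⟩ := h
  exact ⟨e, b, hq.trans h1, h2⟩

theorem splits_one {a : J → ZMod m} {S : Finset J} (hne : S.Nonempty) (hs : ∑ j ∈ S, a j = 0) :
    Splits a S 1 := by
  refine ⟨1, fun _ => 0, le_rfl, fun _ _ => Nat.one_pos, ?_, ?_⟩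
  · intro i hi
    obtain ⟨j, hj⟩ := hne
    exact ⟨j, hj, (Nat.lt_one_iff.1 hi).symm⟩
  · intro i hi
    have h0 : i = 0 := by omega
    subst h0
    rw [filter_true_of_mem fun _ _ => rfl]
    exact hs

theorem Splits.add {a : J → ZMod m} {S T : Finset J} {q : ℕ} (hT : T ⊆ S) (hne : T.Nonempty)
    (hs : ∑ j ∈ T, a j = 0) (h : Splits a (S \ T) q) : Splits a S (q + 1) := by
  obtain ⟨e, b, h1, h2, h3, h4⟩ := h
  refine ⟨e + 1, fun j => if j ∈ T then e else b j, by omega, ?_, ?_, ?_⟩
  · intro j hj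
    by_cases hjT : j ∈ T
    · simp only [if_pos hjT]
      omega
    · simp only [if_neg hjT]
      have := h2 j (mem_sdiff.2 ⟨hj, hjT⟩)
      omega
  · intro i hi
    by_cases hie : i = e
    · obtain ⟨j, hj⟩ := hne
      exact ⟨j, hT hj, by simp only [if_pos hj]; exact hie.symm⟩
    · obtain ⟨j, hj, hji⟩ := h3 i (by omega)
      obtain ⟨hjS, hjT⟩ := mem_sdiff.1 hj
      exact ⟨j, hjS, by simp only [if_neg hjT]; exact hji⟩
  · intro i hi
    by_cases hie : i = e
    · have : (S.filter fun j => (if j ∈ T then e else b j) = i) = T := by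
        ext j
        rw [mem_filter]
        constructor
        · rintro ⟨hjS, hj⟩
          by_contra hjT
          rw [if_neg hjT] at hj
          have := h2 j (mem_sdiff.2 ⟨hjS, hjT⟩)
          omega
        · intro hj
          exact ⟨hT hj, by rw [if_pos hj]; exact hie.symm⟩
      rw [this]
      exact hs
    · have : (S.filter fun j => (if j ∈ T then e else b j) = i) =
          (S \ T).filter fun j => b j = i := by
        ext j
        rw [mem_filter, mem_filter, mem_sdiff]
        constructor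
        · rintro ⟨hjS, hj⟩
          by_cases hjT : j ∈ T
          · rw [if_pos hjT] at hj
            exact absurd hj.symm hie
          · rw [if_neg hjT] at hj
            exact ⟨⟨hjS, hjT⟩, hj⟩
        · rintro ⟨⟨hjS, hjT⟩, hj⟩
          exact ⟨hjS, by rw [if_neg hjT]; exact hj⟩
      rw [this]
      exact h4 i (by omega)

theorem ZeroFree.card_lt {a : J → ZMod m} {S : Finset J} (hz : ZeroFree a S) : S.card < m := by
  have key : ∀ n, ∀ T : Finset J, T.card = n → ZeroFree a T → n + 1 ≤ (sums a T).card := by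
    intro n
    induction n with
    | zero =>
      intro T _ _
      have := card_pos.2 ⟨0, zero_mem_sums a T⟩
      omega
    | succ n ih =>
      intro T hT hz
      obtain ⟨g, hg⟩ := card_pos.1 (by omega : 0 < T.card)
      have h1 := card_erase_lt hz hg
      have h2 := ih (T.erase g) (by rw [card_erase_of_mem hg]; omega)
        (hz.mono (erase_subset _ _))
      omega
  have h1 := key S.card S rfl hz
  have h2 := card_le_univ (sums a S)
  rw [ZMod.card] at h2
  omega

/-- There is a short zero-sum subsequence. -/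
theorem exists_short {a : J → ZMod m} {S : Finset J} (hne : S.Nonempty)
    (hs : ∑ j ∈ S, a j = 0) : ∃ T ⊆ S, T.Nonempty ∧ ∑ j ∈ T, a j = 0 ∧ T.card ≤ m := by
  classical
  obtain ⟨T, hT, hmin⟩ := exists_min_image
    (S.powerset.filter fun T => T.Nonempty ∧ ∑ j ∈ T, a j = 0) card
    ⟨S, mem_filter.2 ⟨mem_powerset.2 Subset.rfl, hne, hs⟩⟩
  rw [mem_filter, mem_powerset] at hT
  obtain ⟨hTS, hTne, hTs⟩ := hT
  refine ⟨T, hTS, hTne, hTs, ?_⟩
  obtain ⟨i, hi⟩ := hTne
  have hz : ZeroFree a (T.erase i) := by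
    intro U hU hUne h0
    have hUT : U ⊆ T := hU.trans (erase_subset _ _)
    have h1 := hmin U (mem_filter.2 ⟨mem_powerset.2 (hUT.trans hTS), hUne, h0⟩)
    have h2 := card_le_card hU
    rw [card_erase_of_mem hi] at h2
    have : 0 < T.card := card_pos.2 ⟨i, hi⟩
    omega
  have h1 := hz.card_lt
  rw [card_erase_of_mem hi] at h1
  omega

theorem splits_of_long {a : J → ZMod m} (k : ℕ) : ∀ {S : Finset J}, ∑ j ∈ S, a j = 0 →
    k * m < S.card → Splits a S (k + 1) := by
  induction k with
  | zero =>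
    intro S hs hlt
    exact splits_one (card_pos.1 (by omega)) hs
  | succ k ih =>
    intro S hs hlt
    obtain ⟨T, hT, hTne, hTs, hTm⟩ := exists_short (card_pos.1 (by omega)) hs
    apply Splits.add hT hTne hTs
    apply ih
    · have := sum_sdiff (f := a) hT
      rw [hTs, hs, add_zero] at this
      exact this
    · have h1 := card_sdiff_add_card_eq_card hT
      rw [Nat.succ_mul] at hlt
      omega

/-- Two units which both make almost all of a half-long sequence small are equal, first step. -/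
theorem no_one_two {a : J → ZMod m} {R : Finset J} (hcard : R.card = m / 2)
    (ha : ∀ k ∈ R, a k ≠ 0) {u v : (ZMod m)ˣ}
    (h1 : ∑ k ∈ R, ((u : ZMod m) * a k).val + 2 ≤ m)
    (h2 : ∑ k ∈ R, ((v : ZMod m) * a k).val + 2 ≤ m) {k : J} (_hk : k ∈ R)
    (hk1 : ((u : ZMod m) * a k).val = 1) (hk2 : ((v : ZMod m) * a k).val = 2) : False := by
  have hval : ∀ (w : (ZMod m)ˣ), ∀ l ∈ R, 1 ≤ ((w : ZMod m) * a l).val := by
    intro w l hl
    apply Nat.one_le_iff_ne_zero.2
    intro h0
    have h3 := (ZMod.val_eq_zero _).1 h0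
    exact ha l hl ((Units.mul_right_eq_zero w).1 h3)
  have e1 : (u : ZMod m) * a k = 1 := by
    rw [← ZMod.natCast_zmod_val ((u : ZMod m) * a k), hk1, Nat.cast_one]
  have e2 : (v : ZMod m) * a k = 2 := by
    rw [← ZMod.natCast_zmod_val ((v : ZMod m) * a k), hk2, Nat.cast_two]
  -- some l has v-value 1
  have hex : ∃ l ∈ R, ((v : ZMod m) * a l).val = 1 := by
    by_contra hc
    push Not at hc
    have : ∑ l ∈ R, 2 ≤ ∑ l ∈ R, ((v : ZMod m) * a l).val := by
      apply sum_le_sum
      intro l hl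
      have h3 := hval v l hl
      have h4 := hc l hl
      omega
    rw [sum_const, smul_eq_mul, hcard] at this
    omega
  obtain ⟨l, hl, hl1⟩ := hex
  have e3 : (v : ZMod m) * a l = 1 := by
    rw [← ZMod.natCast_zmod_val ((v : ZMod m) * a l), hl1, Nat.cast_one]
  -- 2 * (u a l) = 1
  have e4 : a k = 2 * a l := by
    apply v.isUnit.mul_left_cancel
    rw [e2]
    calc (2 : ZMod m) = 2 * ((v : ZMod m) * a l) := by rw [e3, mul_one]
      _ = (v : ZMod m) * (2 * a l) := by ring
  have e5 : 2 * ((u : ZMod m) * a l) = 1 := by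
    calc 2 * ((u : ZMod m) * a l) = (u : ZMod m) * (2 * a l) := by ring
      _ = 1 := by rw [← e4, e1]
  set x := ((u : ZMod m) * a l).val with hx
  have hxle : x + (R.card - 1) ≤ ∑ k ∈ R, ((u : ZMod m) * a k).val := by
    have h3 := add_sum_erase R (fun k => ((u : ZMod m) * a k).val) hl
    rw [← h3]
    have h4 : ∑ k ∈ R.erase l, 1 ≤ ∑ k ∈ R.erase l, ((u : ZMod m) * a k).val :=
      sum_le_sum fun i hi => hval u i (mem_of_mem_erase hi)
    rw [← card_eq_sum_ones, card_erase_of_mem hl] at h4
    omega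
  have hx1 : 1 ≤ x := hval u l hl
  have hRpos : 0 < R.card := card_pos.2 ⟨l, hl⟩
  have e6 : ((2 * x - 1 : ℕ) : ZMod m) = 0 := by
    rw [Nat.cast_sub (by omega)]
    push_cast
    rw [hx, ZMod.natCast_zmod_val, e5, sub_self]
  rw [ZMod.natCast_eq_zero_iff] at e6
  have := Nat.le_of_dvd (by omega) e6
  omega

/-- Two units which both make a half-long sequence small are equal. -/
theorem unique_unit {a : J → ZMod m} {C : Finset J} (hcard : C.card = m / 2) {i j : J}
    (hi : i ∉ C) (hj : j ∉ C) (hai : a i ≠ 0) (haj : a j ≠ 0) (ha : ∀ k ∈ C, a k ≠ 0)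
    {u v : (ZMod m)ˣ} (h1 : ∑ k ∈ insert i C, ((u : ZMod m) * a k).val < m)
    (h2 : ∑ k ∈ insert j C, ((v : ZMod m) * a k).val < m) : u = v := by
  by_contra huv
  have hval : ∀ (w : (ZMod m)ˣ), ∀ l, a l ≠ 0 → 1 ≤ ((w : ZMod m) * a l).val := by
    intro w l hl
    apply Nat.one_le_iff_ne_zero.2
    intro h0
    have h3 := (ZMod.val_eq_zero _).1 h0
    exact hl ((Units.mul_right_eq_zero w).1 h3)
  rw [sum_insert hi] at h1
  rw [sum_insert hj] at h2
  have h3 := hval u i hai
  have h4 := hval v j haj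
  have h1' : ∑ k ∈ C, ((u : ZMod m) * a k).val + 2 ≤ m := by omega
  have h2' : ∑ k ∈ C, ((v : ZMod m) * a k).val + 2 ≤ m := by omega
  have h5 : ∀ k ∈ C, 4 ≤ ((u : ZMod m) * a k).val + ((v : ZMod m) * a k).val := by
    intro k hk
    have h6 := hval u k (ha k hk)
    have h7 := hval v k (ha k hk)
    by_contra hlt
    push Not at hlt
    have h8 : (((u : ZMod m) * a k).val = 1 ∧ ((v : ZMod m) * a k).val = 1) ∨
        (((u : ZMod m) * a k).val = 1 ∧ ((v : ZMod m) * a k).val = 2) ∨
        (((u : ZMod m) * a k).val = 2 ∧ ((v : ZMod m) * a k).val = 1) := by omega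
    rcases h8 with ⟨e1, e2⟩ | ⟨e1, e2⟩ | ⟨e1, e2⟩
    · apply huv
      have e3 : (u : ZMod m) * a k = 1 := by
        rw [← ZMod.natCast_zmod_val ((u : ZMod m) * a k), e1, Nat.cast_one]
      have e4 : (v : ZMod m) * a k = 1 := by
        rw [← ZMod.natCast_zmod_val ((v : ZMod m) * a k), e2, Nat.cast_one]
      apply Units.ext
      calc (u : ZMod m) = (u : ZMod m) * ((v : ZMod m) * a k) := by rw [e4, mul_one]
        _ = (v : ZMod m) * ((u : ZMod m) * a k) := by ring
        _ = v := by rw [e3, mul_one]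
    · exact no_one_two hcard ha h1' h2' hk e1 e2
    · exact no_one_two hcard ha h2' h1' hk e2 e1
  have h9 : ∑ k ∈ C, 4 ≤ ∑ k ∈ C, (((u : ZMod m) * a k).val + ((v : ZMod m) * a k).val) :=
    sum_le_sum h5
  rw [sum_const, smul_eq_mul, hcard, sum_add_distrib] at h9
  omega

/-- **Generalised theorem of Savchev and Chen.** -/
theorem exists_split_long (a : J → ZMod m) (S : Finset J) (ha : ∀ j ∈ S, a j ≠ 0)
    (hsum : ∑ j ∈ S, a j = 0) (q : ℕ) (hlen : (q - 2) * m + m / 2 + 2 ≤ S.card)
    (hq : ∀ u : (ZMod m)ˣ, m * q ≤ ∑ j ∈ S, ((u : ZMod m) * a j).val) : Splits a S q := by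
  have hm0 : 0 < m := NeZero.pos m
  have hSne : S.Nonempty := card_pos.1 (by omega)
  by_cases hq2 : q < 2
  · exact (splits_one hSne hsum).mono (by omega)
  push Not at hq2
  by_cases hshort : ∃ T ⊆ S, T.Nonempty ∧ ∑ j ∈ T, a j = 0 ∧ T.card ≤ m / 2 + 1
  · obtain ⟨T, hT, hTne, hTs, hTm⟩ := hshort
    have h1 := card_sdiff_add_card_eq_card hT
    have h2 : Splits a (S \ T) ((q - 2) + 1) := by
      apply splits_of_long
      · have := sum_sdiff (f := a) hT
        rw [hTs, hsum, add_zero] at this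
        exact this
      · omega
    exact (Splits.add hT hTne hTs h2).mono (by omega)
  push Not at hshort
  -- all short subsequences are zero-free
  have hP : ∀ R ⊆ S, R.card = m / 2 + 1 →
      ∃ u : (ZMod m)ˣ, ∑ j ∈ R, ((u : ZMod m) * a j).val < m := by
    intro R hR hRc
    apply savchev_chen a R
    · intro T hT hne h0
      have h1 := hshort T (hT.trans hR) hne h0
      have h2 := card_le_card hT
      omega
    · omega
  obtain ⟨R₀, hR₀, hR₀c⟩ := exists_subset_card_eq (s := S) (n := m / 2 + 1) (by omega)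
  obtain ⟨u, hu⟩ := hP R₀ hR₀ hR₀c
  -- the unit is the same for all subsequences of this length
  have hall : ∀ n, ∀ R ⊆ S, R.card = m / 2 + 1 → (R \ R₀).card = n →
      ∑ j ∈ R, ((u : ZMod m) * a j).val < m := by
    intro n
    induction n with
    | zero =>
      intro R hR hRc hn
      have h1 : R \ R₀ = ∅ := card_eq_zero.1 hn
      have h2 : R ⊆ R₀ := sdiff_eq_empty_iff_subset.1 h1
      have h3 : R = R₀ := eq_of_subset_of_card_le h2 (by omega)
      rw [h3]
      exact hu
    | succ n ih =>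
      intro R hR hRc hn
      obtain ⟨j, hj⟩ := card_pos.1 (by omega : 0 < (R \ R₀).card)
      obtain ⟨hjR, hjR₀⟩ := mem_sdiff.1 hj
      have h1 : (R₀ \ R).card = (R \ R₀).card := by
        have e1 := card_sdiff_add_card_inter R₀ R
        have e2 := card_sdiff_add_card_inter R R₀
        rw [inter_comm] at e2
        omega
      obtain ⟨i, hi⟩ := card_pos.1 (by omega : 0 < (R₀ \ R).card)
      obtain ⟨hiR₀, hiR⟩ := mem_sdiff.1 hi
      set C := R.erase j with hC
      have hCc : C.card = m / 2 := by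
        rw [hC, card_erase_of_mem hjR]
        omega
      have hjC : j ∉ C := notMem_erase j R
      have hiC : i ∉ C := fun h => hiR (mem_of_mem_erase h)
      have hR1 : insert i C ⊆ S := insert_subset (hR₀ hiR₀) ((erase_subset _ _).trans hR)
      have h2 : ((insert i C) \ R₀).card = n := by
        have h3 : (insert i C) \ R₀ = (R \ R₀).erase j := by
          ext z
          simp only [mem_sdiff, mem_insert, hC, mem_erase]
          constructor
          · rintro ⟨rfl | ⟨h4, h5⟩, h6⟩
            · exact absurd hiR₀ h6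
            · exact ⟨h4, h5, h6⟩
          · rintro ⟨h4, h5, h6⟩
            exact ⟨Or.inr ⟨h4, h5⟩, h6⟩
        rw [h3, card_erase_of_mem hj]
        omega
      have h4 := ih (insert i C) hR1 (by rw [card_insert_of_notMem hiC]; omega) h2
      obtain ⟨v, hv⟩ := hP R hR hRc
      have hins : insert j C = R := insert_erase hjR
      rw [← hins] at hv
      have h5 := unique_unit hCc hiC hjC (ha i (hR₀ hiR₀)) (ha j (hR hjR))
        (fun k hk => ha k (hR (mem_of_mem_erase hk))) h4 hv
      rw [← hins, h5]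
      exact hv
  set x : J → ℕ := fun j => ((u : ZMod m) * a j).val with hx
  have hx1 : ∀ j ∈ S, 1 ≤ x j := by
    intro j hj
    apply Nat.one_le_iff_ne_zero.2
    intro h0
    have h3 := (ZMod.val_eq_zero _).1 h0
    exact ha j hj ((Units.mul_right_eq_zero u).1 h3)
  -- the subsequence of the largest terms
  obtain ⟨R, hR, hmax⟩ := exists_max_image (S.powersetCard (m / 2 + 1)) (fun R => ∑ j ∈ R, x j)
    ⟨R₀, mem_powersetCard.2 ⟨hR₀, hR₀c⟩⟩
  rw [mem_powersetCard] at hR
  obtain ⟨hRS, hRc⟩ := hR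
  have hRlt : ∑ j ∈ R, x j < m := hall _ R hRS hRc rfl
  have hex : ∃ i ∈ R, x i = 1 := by
    by_contra hc
    push Not at hc
    have : ∑ l ∈ R, 2 ≤ ∑ l ∈ R, x l := by
      apply sum_le_sum
      intro l hl
      have h3 := hx1 l (hRS hl)
      have h4 := hc l hl
      omega
    rw [sum_const, smul_eq_mul, hRc] at this
    omega
  obtain ⟨i, hiR, hi1⟩ := hex
  have hone : ∀ j ∈ S \ R, x j = 1 := by
    intro j hj
    obtain ⟨hjS, hjR⟩ := mem_sdiff.1 hj
    have hjE : j ∉ R.erase i := fun h => hjR (mem_of_mem_erase h)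
    have h1 := hmax (insert j (R.erase i)) (mem_powersetCard.2
      ⟨insert_subset hjS ((erase_subset _ _).trans hRS), by
        rw [card_insert_of_notMem hjE, card_erase_of_mem hiR]
        omega⟩)
    have h2 := add_sum_erase R x hiR
    rw [sum_insert hjE] at h1
    have h3 := hx1 j hjS
    omega
  have hcast : ∀ T : Finset J, ((∑ j ∈ T, x j : ℕ) : ZMod m) = (u : ZMod m) * ∑ j ∈ T, a j := by
    intro T
    rw [Nat.cast_sum, mul_sum]
    exact sum_congr rfl fun j _ => ZMod.natCast_zmod_val _
  have htot : ∑ j ∈ S, x j = ∑ j ∈ R, x j + (S \ R).card := by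
    have h1 := sum_sdiff (f := x) hRS
    rw [sum_congr rfl hone, ← card_eq_sum_ones] at h1
    omega
  obtain ⟨k, hk⟩ : m ∣ ∑ j ∈ S, x j := by
    rw [← ZMod.natCast_eq_zero_iff, hcast, hsum, mul_zero]
  have hqk : q ≤ k := by
    have h1 : m * q ≤ m * k := by
      rw [← hk]
      exact hq u
    exact Nat.le_of_mul_le_mul_left h1 hm0
  have hmk : m * 2 ≤ m * k := Nat.mul_le_mul_left m (by omega)
  obtain ⟨V, hV, hVc⟩ := exists_subset_card_eq (s := S \ R) (n := m - ∑ j ∈ R, x j) (by omega)
  have hdis : Disjoint R V := by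
    rw [disjoint_left]
    intro z hz1 hz2
    exact (mem_sdiff.1 (hV hz2)).2 hz1
  have hT : R ∪ V ⊆ S := union_subset hRS (hV.trans sdiff_subset)
  have hTx : ∑ j ∈ R ∪ V, x j = m := by
    rw [sum_union hdis, sum_congr rfl fun j hj => hone j (hV hj), ← card_eq_sum_ones, hVc]
    omega
  have hTs : ∑ j ∈ R ∪ V, a j = 0 := by
    have h1 := hcast (R ∪ V)
    rw [hTx, ZMod.natCast_self] at h1
    exact (Units.mul_right_eq_zero u).1 h1.symm
  have hcardT : (S \ (R ∪ V)).card + m = m * k := by
    have h1 := card_sdiff_add_card_eq_card hT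
    have h2 := card_union_of_disjoint hdis
    have h3 := card_sdiff_add_card_eq_card hRS
    omega
  have h2 : Splits a (S \ (R ∪ V)) ((k - 2) + 1) := by
    apply splits_of_long
    · have := sum_sdiff (f := a) hT
      rw [hTs, hsum, add_zero] at this
      exact this
    · have h3 : m * k = (k - 2) * m + 2 * m := by
        rw [← add_mul, mul_comm]
        congr 1
        omega
      omega
  exact (Splits.add hT ⟨i, mem_union_left _ hiR⟩ hTs h2).mono (by omega)

end Pool.Agent.SavChen
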