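import Pool.Agent.SavChen.Main

/-!
# The theorem of Savchev and Chen
-/

open Finset
open scoped Pointwise

namespace Pool.Agent.SavChen

variable {G : Type*} [AddCommGroup G] [DecidableEq G] {J : Type*} [DecidableEq J]

set_option linter.unusedSectionVars false

theorem triple_card {a : J → G} {S : Finset J} (hz : ZeroFree a S) {i j k : J} (hi : i ∈ S)
    (hj : j ∈ S) (hk : k ∈ S) (hij : a i ≠ a j) (hik : a i ≠ a k) (hjk : a j ≠ a k)
    (t : ∀ g ∈ S, a g + a g ≠ 0) : 7 ≤ (sums a {i, j, k}).card := by
  have nij : i ≠ j := fun h => hij (by rw [h])
  have nik : i ≠ k := fun h => hik (by rw [h])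
  have njk : j ≠ k := fun h => hjk (by rw [h])
  have s1 : ∀ p ∈ S, a p ≠ 0 := fun p hp => by
    have := hz {p} (singleton_subset_iff.2 hp) (singleton_nonempty _)
    rwa [sum_singleton] at this
  have s2 : ∀ p ∈ S, ∀ q ∈ S, p ≠ q → a p + a q ≠ 0 := fun p hp q hq hpq => by
    have := hz {p, q} (by
      intro x hx
      simp only [mem_insert, mem_singleton] at hx
      rcases hx with rfl | rfl
      · exact hp
      · exact hq) (insert_nonempty _ _)
    rwa [sum_pair hpq] at this
  have s3 : a i + a j + a k ≠ 0 := by
    have := hz {i, j, k} (by
      intro x hx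
      simp only [mem_insert, mem_singleton] at hx
      rcases hx with rfl | rfl | rfl
      · exact hi
      · exact hj
      · exact hk) (insert_nonempty _ _)
    rw [sum_insert (by simp [nij, nik]), sum_pair njk, ← add_assoc] at this
    exact this
  apply seven_all (s1 i hi) (s1 j hj) (s1 k hk) (s2 i hi j hj nij) (s2 i hi k hk nik)
    (s2 j hj k hk njk) s3 hij hik hjk (t i hi) (t j hj) (t k hk)
  intro w hw
  simp only [List.mem_cons, List.not_mem_nil, or_false] at hw
  rcases hw with h | h | h | h | h | h | h | h
  · rw [h]
    exact zero_mem_sums _ _
  · exact mem_sums.2 ⟨{i}, by simp, by rw [sum_singleton, h]⟩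
  · exact mem_sums.2 ⟨{j}, by simp, by rw [sum_singleton, h]⟩
  · exact mem_sums.2 ⟨{k}, by simp, by rw [sum_singleton, h]⟩
  · exact mem_sums.2 ⟨{i, j}, by
      intro x hx
      simp only [mem_insert, mem_singleton] at hx ⊢
      tauto, by rw [sum_pair nij, h]⟩
  · exact mem_sums.2 ⟨{i, k}, by
      intro x hx
      simp only [mem_insert, mem_singleton] at hx ⊢
      tauto, by rw [sum_pair nik, h]⟩
  · exact mem_sums.2 ⟨{j, k}, by
      intro x hx
      simp only [mem_insert, mem_singleton] at hx ⊢
      tauto, by rw [sum_pair njk, h]⟩
  · exact mem_sums.2 ⟨{i, j, k}, Subset.rfl, by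
      rw [sum_insert (by simp [nij, nik]), sum_pair njk, ← add_assoc, h]⟩

theorem pair_card {a : J → G} {S : Finset J} (hz : ZeroFree a S) {i j : J} (hi : i ∈ S)
    (hj : j ∈ S) (hij : a i ≠ a j) : 4 ≤ (sums a {i, j}).card := by
  have nij : i ≠ j := fun h => hij (by rw [h])
  have s1 : ∀ p ∈ S, a p ≠ 0 := fun p hp => by
    have := hz {p} (singleton_subset_iff.2 hp) (singleton_nonempty _)
    rwa [sum_singleton] at this
  have s2 : a i + a j ≠ 0 := by
    have := hz {i, j} (by
      intro x hx
      simp only [mem_insert, mem_singleton] at hx
      rcases hx with rfl | rfl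
      · exact hi
      · exact hj) (insert_nonempty _ _)
    rwa [sum_pair nij] at this
  have h1 : ({0, a i, a j, a i + a j} : Finset G) ⊆ sums a {i, j} := by
    intro x hx
    simp only [mem_insert, mem_singleton] at hx
    rcases hx with rfl | rfl | rfl | rfl
    · exact zero_mem_sums _ _
    · exact mem_sums.2 ⟨{i}, by simp, by rw [sum_singleton]⟩
    · exact mem_sums.2 ⟨{j}, by simp, by rw [sum_singleton]⟩
    · exact mem_sums.2 ⟨{i, j}, Subset.rfl, by rw [sum_pair nij]⟩
  have h2 := card_le_card h1
  rw [card_insert_of_notMem, card_insert_of_notMem, card_insert_of_notMem, card_singleton] at h2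
  · exact h2
  · rw [mem_singleton]
    exact (ne_of_sub (s1 i hi) (by abel)).symm
  · simp only [mem_insert, mem_singleton, not_or]
    exact ⟨hij, (ne_of_sub (s1 j hj) (by abel)).symm⟩
  · simp only [mem_insert, mem_singleton, not_or]
    exact ⟨(s1 i hi).symm, (s1 j hj).symm, s2.symm⟩

/-- The last configuration: all terms but two are equal to `h`. -/
theorem last_case {a : J → G} {S : Finset J} (hz : ZeroFree a S)
    (hbad : ∀ g ∈ S, (sums a S).card ≤ (sums a (S.erase g)).card + 1)
    (hcard : (sums a S).card + 1 ≤ 2 * S.card) {e p q : J} (he : e ∈ S) (hp : p ∈ S) (hq : q ∈ S)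
    (hep : a e ≠ a p) (heq : a e ≠ a q) (hpq : a p ≠ a q)
    (hT : ∀ f ∈ S, f ≠ e → f ≠ q → a f = a p)
    (hno : ∀ y : ℕ, 1 ≤ y → y + 3 ≤ S.card → a e ≠ y • a p) : False := by
  have nep : e ≠ p := fun h => hep (by rw [h])
  have neq : e ≠ q := fun h => heq (by rw [h])
  have npq : p ≠ q := fun h => hpq (by rw [h])
  set h := a p with hh
  set l := S.card with hl
  -- h = a e + a q
  have hsum : h = a e + a q := by
    obtain ⟨R, hR, hR2, hR3⟩ := rel hz he (hbad e he) hp hep.symm
    have hRq : R ⊆ {q} := by
      intro f hf
      rw [mem_singleton]
      by_contra hfq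
      have hf2 := mem_erase.1 (hR hf)
      exact hR2 f hf (hT f hf2.2 hf2.1 hfq)
    rcases subset_singleton_iff.1 hRq with h0 | h0
    · rw [h0, sum_empty, add_zero] at hR3
      exact absurd hR3 hep.symm
    · rw [h0, sum_singleton] at hR3
      exact hR3
  set H := (S.erase e).erase q with hHdef
  have hHcard : H.card = l - 2 := by
    rw [hHdef, card_erase_of_mem (mem_erase.2 ⟨neq.symm, hq⟩), card_erase_of_mem he]
    omega
  have hl2 : 3 ≤ l := by
    have h1 : ({e, p, q} : Finset J) ⊆ S := by
      intro x hx
      simp only [mem_insert, mem_singleton] at hx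
      rcases hx with rfl | rfl | rfl
      · exact he
      · exact hp
      · exact hq
    have h2 := card_le_card h1
    rw [card_insert_of_notMem (by simp [nep, neq]), card_pair npq] at h2
    exact h2
  have hHS : H ⊆ S := (erase_subset _ _).trans (erase_subset _ _)
  have heH : e ∉ H := by
    rw [hHdef, mem_erase, mem_erase]
    tauto
  have hqH : q ∉ H := by
    rw [hHdef, mem_erase]
    tauto
  have hHval : ∀ f ∈ H, a f = h := by
    intro f hf
    rw [hHdef, mem_erase, mem_erase] at hf
    exact hT f hf.2.2 hf.2.1 hf.1
  have hV : ∀ s ≤ l - 2, ∃ V ⊆ H, V.card = s ∧ ∑ i ∈ V, a i = s • h := by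
    intro s hs
    obtain ⟨V, hV1, hV2⟩ := exists_subset_card_eq (s := H) (n := s) (by omega)
    refine ⟨V, hV1, hV2, ?_⟩
    rw [sum_congr rfl fun i hi => hHval i (hV1 hi), sum_const, hV2]
  have z1 : ∀ s, 1 ≤ s → s ≤ l - 2 → s • h ≠ 0 := by
    intro s hs1 hs2
    obtain ⟨V, hV1, hV2, hV3⟩ := hV s hs2
    rw [← hV3]
    exact hz V (hV1.trans hHS) (card_pos.1 (by omega))
  have z2 : ∀ s ≤ l - 2, a e + s • h ≠ 0 := by
    intro s hs2
    obtain ⟨V, hV1, hV2, hV3⟩ := hV s hs2
    rw [← hV3, ← sum_insert fun hc => heH (hV1 hc)]
    exact hz _ (insert_subset he (hV1.trans hHS)) (insert_nonempty _ _)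
  have z3 : ∀ s ≤ l - 2, a q + s • h ≠ 0 := by
    intro s hs2
    obtain ⟨V, hV1, hV2, hV3⟩ := hV s hs2
    rw [← hV3, ← sum_insert fun hc => hqH (hV1 hc)]
    exact hz _ (insert_subset hq (hV1.trans hHS)) (insert_nonempty _ _)
  have z4 : ∀ s, 1 ≤ s → s ≤ l - 1 → s • h ≠ 0 := by
    intro s hs1 hs2
    by_cases hs3 : s ≤ l - 2
    · exact z1 s hs1 hs3
    · obtain ⟨V, hV1, hV2, hV3⟩ := hV (s - 1) (by omega)
      have heV : e ∉ insert q V := by
        rw [mem_insert]
        rintro (h1 | h1)
        · exact neq h1
        · exact heH (hV1 h1)
      have h5 := hz (insert e (insert q V)) (insert_subset he (insert_subset hq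
        (hV1.trans hHS))) (insert_nonempty _ _)
      rw [sum_insert heV, sum_insert fun hc => hqH (hV1 hc), hV3, ← add_assoc, ← hsum] at h5
      have : s • h = h + (s - 1) • h := by
        rw [← succ_nsmul']
        congr 1
        omega
      rw [this]
      exact h5
  have m0 : ∀ s ≤ l - 1, s • h ∈ sums a S := by
    intro s hs
    by_cases hs3 : s ≤ l - 2
    · obtain ⟨V, hV1, hV2, hV3⟩ := hV s hs3
      exact mem_sums.2 ⟨V, hV1.trans hHS, hV3⟩
    · obtain ⟨V, hV1, hV2, hV3⟩ := hV (s - 1) (by omega)
      have heV : e ∉ insert q V := by
        rw [mem_insert]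
        rintro (h1 | h1)
        · exact neq h1
        · exact heH (hV1 h1)
      refine mem_sums.2 ⟨insert e (insert q V), insert_subset he (insert_subset hq
        (hV1.trans hHS)), ?_⟩
      rw [sum_insert heV, sum_insert fun hc => hqH (hV1 hc), hV3, ← add_assoc, ← hsum]
      rw [← succ_nsmul']
      congr 1
      omega
  have m1 : ∀ s ≤ l - 2, a e + s • h ∈ sums a S := by
    intro s hs
    obtain ⟨V, hV1, hV2, hV3⟩ := hV s hs
    refine mem_sums.2 ⟨insert e V, insert_subset he (hV1.trans hHS), ?_⟩
    rw [sum_insert fun hc => heH (hV1 hc), hV3]
  have m2 : ∀ s ≤ l - 2, a q + s • h ∈ sums a S := by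
    intro s hs
    obtain ⟨V, hV1, hV2, hV3⟩ := hV s hs
    refine mem_sums.2 ⟨insert q V, insert_subset hq (hV1.trans hHS), ?_⟩
    rw [sum_insert fun hc => hqH (hV1 hc), hV3]
  have dist : ∀ s t : ℕ, s < t → t ≤ l - 1 → s • h ≠ t • h := by
    intro s t hst ht he2
    apply z4 (t - s) (by omega) (by omega)
    have : t • h = (t - s) • h + s • h := by
      rw [← add_smul]
      congr 1
      omega
    rw [← he2] at this
    simpa using this
  set X0 := (range l).image fun s : ℕ => s • h with hX0
  set X1 := (range (l - 1)).image fun s : ℕ => a e + s • h with hX1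
  have c0 : X0.card = l := by
    rw [hX0, card_image_of_injOn, card_range]
    intro s hs t ht hst
    rw [coe_range, Set.mem_Iio] at hs ht
    by_contra hne
    rcases Nat.lt_or_gt_of_ne hne with hlt | hlt
    · exact dist s t hlt (by omega) hst
    · exact dist t s hlt (by omega) hst.symm
  have c1 : X1.card = l - 1 := by
    rw [hX1, card_image_of_injOn, card_range]
    intro s hs t ht hst
    rw [coe_range, Set.mem_Iio] at hs ht
    have hst2 : s • h = t • h := add_left_cancel hst
    by_contra hne
    rcases Nat.lt_or_gt_of_ne hne with hlt | hlt
    · exact dist s t hlt (by omega) hst2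
    · exact dist t s hlt (by omega) hst2.symm
  have haq : a q = h - a e := by
    rw [hsum]
    abel
  have d01 : Disjoint X0 X1 := by
    rw [disjoint_left]
    intro x hx hx2
    rw [hX0, mem_image] at hx
    rw [hX1, mem_image] at hx2
    obtain ⟨s, hs, rfl⟩ := hx
    obtain ⟨t, ht, ht2⟩ := hx2
    rw [mem_range] at hs ht
    -- a e + t h = s h
    rcases le_or_gt s t with hle | hlt
    · apply z2 (t - s) (by omega)
      have : t • h = (t - s) • h + s • h := by
        rw [← add_smul]
        congr 1
        omega
      rw [this, ← add_assoc] at ht2
      simpa using ht2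
    · have h6 : a e = (s - t) • h := by
        have : s • h = (s - t) • h + t • h := by
          rw [← add_smul]
          congr 1
          omega
        rw [this] at ht2
        exact add_right_cancel ht2
      by_cases h7 : (s - t) + 3 ≤ l
      · exact hno (s - t) (by omega) h7 h6
      · apply z3 (s - t - 1) (by omega)
        rw [haq, h6]
        have : (s - t) • h = h + (s - t - 1) • h := by
          rw [← succ_nsmul']
          congr 1
          omega
        rw [this]
        abel
  have hU : X0 ∪ X1 = sums a S := by
    apply eq_of_subset_of_card_le
    · intro x hx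
      rcases mem_union.1 hx with hx | hx
      · obtain ⟨s, hs, rfl⟩ := mem_image.1 hx
        rw [mem_range] at hs
        exact m0 s (by omega)
      · obtain ⟨s, hs, rfl⟩ := mem_image.1 hx
        rw [mem_range] at hs
        exact m1 s (by omega)
    · rw [card_union_of_disjoint d01, c0, c1]
      omega
  have hq1 : ∀ s ≤ l - 2, ∃ t < l - 1, a q + s • h = a e + t • h := by
    intro s hs
    have h8 := m2 s hs
    rw [← hU] at h8
    rcases mem_union.1 h8 with h8 | h8
    · exfalso
      obtain ⟨t, ht, ht2⟩ := mem_image.1 h8
      rw [mem_range] at ht
      have ht3 : t • h = a q + s • h := ht2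
      rcases le_or_gt t s with hle | hlt
      · apply z3 (s - t) (by omega)
        have : s • h = (s - t) • h + t • h := by
          rw [← add_smul]
          congr 1
          omega
        rw [this, ← add_assoc] at ht3
        simpa using ht3.symm
      · apply z2 (t - s - 1) (by omega)
        have h9 : a q = (t - s) • h := by
          have : t • h = (t - s) • h + s • h := by
            rw [← add_smul]
            congr 1
            omega
          rw [this] at ht3
          exact (add_right_cancel ht3).symm
        have h10 : a e = h - a q := by
          rw [hsum]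
          abel
        rw [h10, h9]
        have : (t - s) • h = h + (t - s - 1) • h := by
          rw [← succ_nsmul']
          congr 1
          omega
        rw [this]
        abel
    · obtain ⟨t, ht, ht2⟩ := mem_image.1 h8
      rw [mem_range] at ht
      exact ⟨t, ht, ht2.symm⟩
  obtain ⟨j, hj, hj2⟩ := hq1 0 (by omega)
  rw [zero_smul, add_zero] at hj2
  have hj0 : j ≠ 0 := by
    rintro rfl
    rw [zero_smul, add_zero] at hj2
    exact heq hj2.symm
  obtain ⟨t, ht, ht2⟩ := hq1 (l - 1 - j) (by omega)
  rw [hj2, add_assoc, ← add_smul] at ht2
  have h11 := add_left_cancel ht2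
  have h12 : j + (l - 1 - j) = l - 1 := by omega
  rw [h12] at h11
  exact dist t (l - 1) ht le_rfl h11.symm

/-- A zero-free sequence of length `l` with at most `2 l - 2` nonempty subsequence sums is
smooth. -/
theorem smooth_of_card (a : J → G) (n : ℕ) : ∀ S : Finset J, S.card = n → ZeroFree a S →
    (sums a S).card + 1 ≤ 2 * S.card → ∃ h x, Smooth a S h x := by
  induction n using Nat.strong_induction_on with
  | _ n ih =>
    intro S hSn hz hcard
    by_cases hI : ∃ g ∈ S, (sums a (S.erase g)).card + 1 ≤ 2 * (S.erase g).card
    · obtain ⟨g, hg, hg2⟩ := hI
      have hce := card_erase_of_mem hg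
      have hpos : 0 < S.card := card_pos.2 ⟨g, hg⟩
      obtain ⟨h, x, hs⟩ := ih (S.erase g).card (by omega) (S.erase g) rfl
        (hz.mono (erase_subset _ _)) hg2
      have hins : insert g (S.erase g) = S := insert_erase hg
      have hgn : g ∉ S.erase g := notMem_erase g S
      rcases hs.dichotomy hgn (by rw [hins]; exact hz) with ⟨y, hy1, hy2, hy3⟩ | hbig
      · have := hs.insertOne hgn hy1 (by omega) hy3
        rw [hins] at this
        exact ⟨_, _, this⟩
      · exfalso
        rw [hins] at hbig
        have := hs.card_le
        omega
    · push Not at hI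
      have hbad : ∀ g ∈ S, (sums a S).card ≤ (sums a (S.erase g)).card + 1 := by
        intro g hg
        have h1 := hI g hg
        have hce := card_erase_of_mem hg
        have hpos : 0 < S.card := card_pos.2 ⟨g, hg⟩
        omega
      have h1mem : 1 ≤ (sums a S).card := card_pos.2 ⟨0, zero_mem_sums a S⟩
      have hSpos : 0 < S.card := by omega
      by_cases h3 : ∃ i ∈ S, ∃ j ∈ S, ∃ k ∈ S, a i ≠ a j ∧ a i ≠ a k ∧ a j ≠ a k
      · -- three distinct values
        have hS3 : 3 ≤ S.card := by
          obtain ⟨i, hi, j, hj, k, hk, hij, hik, hjk⟩ := h3
          have nij : i ≠ j := fun h => hij (by rw [h])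
          have nik : i ≠ k := fun h => hik (by rw [h])
          have njk : j ≠ k := fun h => hjk (by rw [h])
          have h1 : ({i, j, k} : Finset J) ⊆ S := by
            intro x hx
            simp only [mem_insert, mem_singleton] at hx
            rcases hx with rfl | rfl | rfl
            · exact hi
            · exact hj
            · exact hk
          have h2 := card_le_card h1
          rw [card_insert_of_notMem (by simp [nij, nik]), card_pair njk] at h2
          exact h2
        have no2 : ∀ g ∈ S, a g + a g ≠ 0 := fun g hg => no_two hz (by omega) hg (hbad g hg)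
        have key : ∀ i ∈ S, ∀ j ∈ S, ∀ k ∈ S, a i ≠ a j → a i ≠ a k → a j ≠ a k →
            (S \ {i, j, k}).card + 3 = S.card ∧ ∃ h x, Smooth a (S \ {i, j, k}) h x ∧
              ∑ f ∈ S \ {i, j, k}, x f + 8 ≤ 2 * S.card := by
          intro i hi j hj k hk hij hik hjk
          have nij : i ≠ j := fun h => hij (by rw [h])
          have nik : i ≠ k := fun h => hik (by rw [h])
          have njk : j ≠ k := fun h => hjk (by rw [h])
          have h1 : ({i, j, k} : Finset J) ⊆ S := by
            intro x hx
            simp only [mem_insert, mem_singleton] at hx
            rcases hx with rfl | rfl | rfl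
            · exact hi
            · exact hj
            · exact hk
          have hc3 : ({i, j, k} : Finset J).card = 3 := by
            rw [card_insert_of_notMem (by simp [nij, nik]), card_pair njk]
          have hcd : (S \ {i, j, k}).card + 3 = S.card := by
            rw [← hc3]
            exact card_sdiff_add_card_eq_card h1
          have hun : (S \ {i, j, k}) ∪ {i, j, k} = S := sdiff_union_of_subset h1
          have h7 := triple_card hz hi hj hk hij hik hjk no2
          have hsch := scherk_sums (a := a) (S := S \ {i, j, k}) (T := {i, j, k})
            sdiff_disjoint (by rw [hun]; exact hz)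
          rw [hun] at hsch
          obtain ⟨h, x, hs⟩ := ih (S \ {i, j, k}).card (by omega) (S \ {i, j, k}) rfl
            (hz.mono sdiff_subset) (by omega)
          refine ⟨hcd, h, x, hs, ?_⟩
          have := hs.card_sums (hz.mono sdiff_subset)
          omega
        -- a triple in which some element is bad
        have bad : ∀ e ∈ S, ∀ p ∈ S, ∀ q ∈ S, a e ≠ a p → a e ≠ a q → a p ≠ a q →
            ∀ h x, Smooth a (S \ {e, p, q}) h x →
              ∑ f ∈ S \ {e, p, q}, x f + 8 ≤ 2 * S.card →
              ∃ y, 1 ≤ y ∧ y ≤ ∑ f ∈ S \ {e, p, q}, x f ∧ a e = y • h := by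
          intro e he p hp q hq hep heq hpq h x hs hle8
          by_contra hno
          have nep : e ≠ p := fun h => hep (by rw [h])
          have neq : e ≠ q := fun h => heq (by rw [h])
          have npq : p ≠ q := fun h => hpq (by rw [h])
          obtain ⟨hcd, -⟩ := key e he p hp q hq hep heq hpq
          set T := S \ {e, p, q} with hTdef
          have heT : e ∉ T := by
            rw [hTdef, mem_sdiff]
            simp
          have hTS : T ⊆ S := sdiff_subset
          have hinsS : insert e T ⊆ S := insert_subset he hTS
          have hbig : 2 * (∑ f ∈ T, x f) + 2 ≤ (sums a (insert e T)).card := by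
            rcases hs.dichotomy heT (hz.mono hinsS) with h1 | h1
            · exact absurd h1 hno
            · exact h1
          have h4 := pair_card hz hp hq hpq
          have hdis : Disjoint (insert e T) ({p, q} : Finset J) := by
            rw [disjoint_left]
            intro z hz1 hz2
            simp only [mem_insert, mem_singleton] at hz1 hz2
            rcases hz1 with rfl | hz1
            · rcases hz2 with hz2 | hz2
              · exact nep hz2
              · exact neq hz2
            · rw [hTdef, mem_sdiff] at hz1
              apply hz1.2
              simp only [mem_insert, mem_singleton]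
              tauto
          have hun : insert e T ∪ {p, q} = S := by
            ext z
            simp only [mem_union, mem_insert, mem_singleton, hTdef, mem_sdiff]
            constructor
            · rintro ((rfl | hz1) | (rfl | rfl))
              · exact he
              · exact hz1.1
              · exact hp
              · exact hq
            · intro hzS
              tauto
          have hsch := scherk_sums (a := a) hdis (by rw [hun]; exact hz)
          rw [hun] at hsch
          have hTle := hs.card_le
          have htT : ∑ f ∈ T, x f = T.card := by omega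
          have hx1 : ∀ f ∈ T, x f = 1 := by
            by_contra hc
            push Not at hc
            obtain ⟨f, hf, hf1⟩ := hc
            have : ∑ f ∈ T, 1 < ∑ f ∈ T, x f := by
              apply sum_lt_sum (fun i hi => (hs.1 i hi).1)
              refine ⟨f, hf, ?_⟩
              have := (hs.1 f hf).1
              omega
            rw [htT, ← card_eq_sum_ones] at this
            exact lt_irrefl _ this
          have hval : ∀ f ∈ T, a f = h := by
            intro f hf
            rw [(hs.1 f hf).2, hx1 f hf, one_smul]
          have hT2 : 2 ≤ T.card := by omega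
          have hno' : ∀ y : ℕ, 1 ≤ y → y ≤ T.card → a e ≠ y • h := by
            intro y hy1 hy2 hy3
            exact hno ⟨y, hy1, by omega, hy3⟩
          have hae : a e ≠ h := by
            have := hno' 1 le_rfl (by omega)
            rwa [one_smul] at this
          by_cases hpv : a p = h
          · -- last case with p
            apply last_case hz hbad hcard he hp hq hep heq hpq
            · intro f hf hfe hfq
              by_cases hfp : f = p
              · rw [hfp]
              · rw [hpv]
                apply hval
                rw [hTdef, mem_sdiff]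
                simp only [mem_insert, mem_singleton, not_or]
                exact ⟨hf, hfe, hfp, hfq⟩
            · intro y hy1 hy2
              rw [hpv]
              exact hno' y hy1 (by omega)
          · by_cases hqv : a q = h
            · apply last_case hz hbad hcard he hq hp heq hep hpq.symm
              · intro f hf hfe hfp
                by_cases hfq : f = q
                · rw [hfq]
                · rw [hqv]
                  apply hval
                  rw [hTdef, mem_sdiff]
                  simp only [mem_insert, mem_singleton, not_or]
                  exact ⟨hf, hfe, hfp, hfq⟩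
              · intro y hy1 hy2
                rw [hqv]
                exact hno' y hy1 (by omega)
            · -- replace e by an element of T
              obtain ⟨f, hf⟩ : T.Nonempty := card_pos.1 (by omega)
              have hfv := hval f hf
              have hfS := hTS hf
              have hfp : a f ≠ a p := by
                rw [hfv]
                exact fun hc => hpv hc.symm
              have hfq : a f ≠ a q := by
                rw [hfv]
                exact fun hc => hqv hc.symm
              have nfe : f ≠ e := by
                rintro rfl
                exact heT hf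
              obtain ⟨hcd', h', x', hs', hle8'⟩ := key f hfS p hp q hq hfp hfq hpq
              set T' := S \ {f, p, q} with hT'def
              have hT'eq : T' = insert e (T.erase f) := by
                ext z
                rw [hT'def, hTdef]
                simp only [mem_sdiff, mem_insert, mem_singleton, mem_erase, not_or]
                constructor
                · rintro ⟨hzS, hzf, hzp, hzq⟩
                  by_cases hze : z = e
                  · left
                    exact hze
                  · right
                    exact ⟨hzf, hzS, hze, hzp, hzq⟩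
                · rintro (rfl | ⟨hzf, hzS, hze, hzp, hzq⟩)
                  · exact ⟨he, nfe.symm, nep, neq⟩
                  · exact ⟨hzS, hzf, hzp, hzq⟩
              have heT' : e ∉ T.erase f := fun hc => heT (mem_of_mem_erase hc)
              have hsumT' : ∑ i ∈ T', x' i = x' e + ∑ i ∈ T.erase f, x' i := by
                rw [hT'eq, sum_insert heT']
              have hce : (T.erase f).card = T.card - 1 := card_erase_of_mem hf
              have hsub : T.erase f ⊆ T' := by
                rw [hT'eq]
                exact subset_insert _ _
              have he1 : 1 ≤ x' e := (hs'.1 e (by rw [hT'eq]; exact mem_insert_self _ _)).1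
              have hex : ∃ g ∈ T.erase f, x' g = 1 := by
                by_contra hc
                push Not at hc
                have : ∑ i ∈ T.erase f, 2 ≤ ∑ i ∈ T.erase f, x' i := by
                  apply sum_le_sum
                  intro i hi
                  have h1 := (hs'.1 i (hsub hi)).1
                  have h2 := hc i hi
                  omega
                rw [sum_const, smul_eq_mul] at this
                omega
              obtain ⟨g, hg, hg1⟩ := hex
              have hh' : h' = h := by
                have h1 := (hs'.1 g (hsub hg)).2
                rw [hg1, one_smul] at h1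
                rw [← h1]
                exact hval g (mem_of_mem_erase hg)
              have hge : (T.erase f).card ≤ ∑ i ∈ T.erase f, x' i := by
                rw [card_eq_sum_ones]
                exact sum_le_sum fun i hi => (hs'.1 i (hsub hi)).1
              have h13 := (hs'.1 e (by rw [hT'eq]; exact mem_insert_self _ _)).2
              rw [hh'] at h13
              exact hno' (x' e) he1 (by omega) h13
        obtain ⟨i, hi, j, hj, k, hk, hij, hik, hjk⟩ := h3
        obtain ⟨hcd, h, x, hs, hle8⟩ := key i hi j hj k hk hij hik hjk
        have nij : i ≠ j := fun h => hij (by rw [h])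
        have nik : i ≠ k := fun h => hik (by rw [h])
        have njk : j ≠ k := fun h => hjk (by rw [h])
        obtain ⟨y1, hy1, hy1', hy1''⟩ := bad i hi j hj k hk hij hik hjk h x hs hle8
        have e2 : S \ {j, i, k} = S \ {i, j, k} := by
          ext z
          simp only [mem_sdiff, mem_insert, mem_singleton]
          tauto
        have e3 : S \ {k, i, j} = S \ {i, j, k} := by
          ext z
          simp only [mem_sdiff, mem_insert, mem_singleton]
          tauto
        obtain ⟨y2, hy2, hy2', hy2''⟩ := bad j hj i hi k hk hij.symm hjk hik h x
          (by rw [e2]; exact hs) (by rw [e2]; exact hle8)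
        obtain ⟨y3, hy3, hy3', hy3''⟩ := bad k hk i hi j hj hik.symm hjk.symm hij h x
          (by rw [e3]; exact hs) (by rw [e3]; exact hle8)
        rw [e2] at hy2'
        rw [e3] at hy3'
        set T := S \ {i, j, k} with hTdef
        have hkT : k ∉ T := by
          rw [hTdef, mem_sdiff]
          simp
        have hjT : j ∉ insert k T := by
          rw [hTdef, mem_insert, mem_sdiff]
          simp [njk]
        have hiT : i ∉ insert j (insert k T) := by
          rw [hTdef, mem_insert, mem_insert, mem_sdiff]
          simp [nij, nik]
        have hall : insert i (insert j (insert k T)) = S := by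
          ext z
          rw [hTdef]
          simp only [mem_insert, mem_sdiff, mem_singleton]
          constructor
          · rintro (rfl | rfl | rfl | h)
            · exact hi
            · exact hj
            · exact hk
            · exact h.1
          · intro hzS
            tauto
        have s1 := hs.insertOne hkT hy3 (by omega) hy3''
        have t1 : ∑ f ∈ insert k T, Function.update x k y3 f = y3 + ∑ f ∈ T, x f := by
          rw [sum_insert hkT, Function.update_self]
          congr 1
          apply sum_congr rfl
          intro f hf
          rw [Function.update_of_ne]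
          rintro rfl
          exact hkT hf
        have s2 := s1.insertOne hjT hy2 (by omega) hy2''
        have t2 : ∑ f ∈ insert j (insert k T), Function.update (Function.update x k y3) j y2 f =
            y2 + ∑ f ∈ insert k T, Function.update x k y3 f := by
          rw [sum_insert hjT, Function.update_self]
          congr 1
          apply sum_congr rfl
          intro f hf
          rw [Function.update_of_ne]
          rintro rfl
          exact hjT hf
        have s3 := s2.insertOne hiT hy1 (by omega) hy1''
        rw [hall] at s3
        exact ⟨_, _, s3⟩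
      · -- at most two values
        push Not at h3
        by_cases h2 : ∃ i ∈ S, ∃ g ∈ S, a i ≠ a g
        · exfalso
          obtain ⟨i, hi, g, hg, hig⟩ := h2
          obtain ⟨R, hR, hR2, hR3⟩ := rel hz hg (hbad g hg) hi hig
          obtain ⟨R', hR', hR2', hR3'⟩ := rel hz hi (hbad i hi) hg hig.symm
          have hRS : R ⊆ S := hR.trans (erase_subset _ _)
          have hRS' : R' ⊆ S := hR'.trans (erase_subset _ _)
          have hRv : ∀ j ∈ R, a j = a g := by
            intro j hj
            have := h3 i hi g hg j (hRS hj) hig (hR2 j hj).symm
            exact this.symm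
          have hRv' : ∀ j ∈ R', a j = a i := by
            intro j hj
            have := h3 g hg i hi j (hRS' hj) hig.symm (hR2' j hj).symm
            exact this.symm
          have hdis : Disjoint R R' := by
            rw [disjoint_left]
            intro j hj hj'
            exact hig ((hRv' j hj').symm.trans (hRv j hj))
          have hne : R.Nonempty := by
            rw [nonempty_iff_ne_empty]
            rintro rfl
            rw [sum_empty, add_zero] at hR3
            exact hig hR3
          apply hz (R ∪ R') (union_subset hRS hRS') (hne.mono subset_union_left)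
          rw [sum_union hdis]
          have h14 : a i = a i + (∑ j ∈ R', a j) + ∑ j ∈ R, a j := by
            rw [← hR3']
            exact hR3
          rw [add_assoc] at h14
          have h15 := left_eq_add.1 h14
          rw [add_comm]
          exact h15
        · push Not at h2
          obtain ⟨i, hi⟩ := card_pos.1 hSpos
          refine ⟨a i, fun _ => 1, ?_, ?_⟩
          · intro j hj
            exact ⟨le_rfl, by rw [one_smul]; exact h2 j hj i hi⟩
          · intro s hs
            rw [← card_eq_sum_ones] at hs
            obtain ⟨T, hT, hT2⟩ := exists_subset_card_eq hs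
            exact ⟨T, hT, by rw [← card_eq_sum_ones, hT2]⟩

/-- **Savchev and Chen**: a zero-free sequence in `ZMod m` of length more than `m / 2` consists of
positive multiples of a unit whose sum is less than `m`. -/
theorem savchev_chen {m : ℕ} [NeZero m] (a : J → ZMod m) (S : Finset J) (hz : ZeroFree a S)
    (hlen : m < 2 * S.card) : ∃ (u : (ZMod m)ˣ), ∑ i ∈ S, ((u : ZMod m) * a i).val < m := by
  have hcard : (sums a S).card + 1 ≤ 2 * S.card := by
    have h1 := card_le_univ (sums a S)
    rw [ZMod.card] at h1
    omega
  obtain ⟨h, x, hs⟩ := smooth_of_card a S.card S rfl hz hcard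
  have hpos : 0 < addOrderOf h := addOrderOf_pos h
  have hlt := hs.lt hz hpos
  have hle := hs.card_le
  have hdvd : addOrderOf h ∣ m := by
    have := addOrderOf_dvd_card (x := h)
    rwa [ZMod.card] at this
  have hord : addOrderOf h = m := by
    obtain ⟨c, hc⟩ := hdvd
    have hm0 : 0 < m := Nat.pos_of_ne_zero (NeZero.ne m)
    have : c = 1 := by
      rcases Nat.lt_or_ge c 2 with hc2 | hc2
      · interval_cases c
        · omega
        · rfl
      · exfalso
        have h1 : addOrderOf h * 2 ≤ addOrderOf h * c := Nat.mul_le_mul_left _ hc2
        omega
    rw [this, mul_one] at hc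
    exact hc.symm
  have hunit : IsUnit h := by
    rw [← ZMod.natCast_zmod_val h, ZMod.isUnit_iff_coprime]
    have h1 := ZMod.addOrderOf_coe h.val (NeZero.ne m)
    rw [ZMod.natCast_zmod_val, hord] at h1
    have h2 : m.gcd h.val ∣ m := Nat.gcd_dvd_left _ _
    have h3 : m / m.gcd h.val = m := h1.symm
    have hm0 : 0 < m := Nat.pos_of_ne_zero (NeZero.ne m)
    have h4 : m.gcd h.val = 1 := by
      have h5 := Nat.div_mul_cancel h2
      rw [h3] at h5
      exact Nat.eq_of_mul_eq_mul_left hm0 (by rw [h5, mul_one])
    rw [Nat.coprime_iff_gcd_eq_one, Nat.gcd_comm]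
    exact h4
  obtain ⟨v, hv⟩ := hunit
  refine ⟨v⁻¹, ?_⟩
  have hval : ∀ i ∈ S, (((v⁻¹ : (ZMod m)ˣ) : ZMod m) * a i).val = x i := by
    intro i hi
    have h1 : a i = x i • (v : ZMod m) := by
      rw [hv]
      exact (hs.1 i hi).2
    rw [h1, mul_smul_comm, Units.inv_mul, nsmul_eq_mul, mul_one, ZMod.val_natCast,
      Nat.mod_eq_of_lt]
    have := single_le_sum (f := x) (fun i _ => Nat.zero_le _) hi
    omega
  rw [sum_congr rfl hval, ← hord]
  exact hlt

end Pool.Agent.SavChen
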