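import Mathlib

/-!
# Long zero-free sequences (Savchev and Chen)

A zero-free sequence of length `l` with at most `2 l - 2` subsequence sums is smooth.
-/

open Finset
open scoped Pointwise

namespace Pool.Agent.SavChen

variable {G : Type*} [AddCommGroup G] [DecidableEq G]

set_option linter.unusedSectionVars false

/-- The theorem of Kemperman and Scherk. -/
theorem scherk (n : ℕ) : ∀ (A B : Finset G), B.card = n → 0 ∈ A → 0 ∈ B →
    (∀ a ∈ A, ∀ b ∈ B, a + b = 0 → b = 0) → A.card + B.card ≤ (A + B).card + 1 := by
  induction n using Nat.strong_induction_on with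
  | _ n ih =>
    intro A B hB hA0 hB0 h
    by_cases hc : ∃ a ∈ A, ∃ b ∈ B, a + b ∉ A
    · obtain ⟨a, ha, b, hb, hab⟩ := hc
      set C := B.filter (fun b => a + b ∉ A) with hC
      set D := B.filter (fun b => ¬ (a + b ∉ A)) with hD
      have hcd : C.card + D.card = B.card := by
        rw [hC, hD]
        exact card_filter_add_card_filter_not _
      have hbC : b ∈ C := by
        rw [hC, mem_filter]
        exact ⟨hb, hab⟩
      have hCpos : 0 < C.card := card_pos.2 ⟨b, hbC⟩
      have hcard : (A ∪ C.image (fun b => a + b)).card = A.card + C.card := by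
        rw [card_union_of_disjoint, card_image_of_injective]
        · exact add_right_injective a
        · rw [disjoint_left]
          intro x hx hx2
          obtain ⟨c, hc, rfl⟩ := mem_image.1 hx2
          rw [hC, mem_filter] at hc
          exact hc.2 hx
      have h1 := ih D.card (by omega) (A ∪ C.image (fun b => a + b)) D rfl
        (mem_union_left _ hA0) (by
          rw [hD, mem_filter]
          refine ⟨hB0, ?_⟩
          rw [not_not, add_zero]
          exact ha) (by
          intro x hx y hy hxy
          rw [hD, mem_filter, not_not] at hy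
          rcases mem_union.1 hx with hx | hx
          · exact h x hx y hy.1 hxy
          · obtain ⟨c, hc, rfl⟩ := mem_image.1 hx
            rw [hC, mem_filter] at hc
            exfalso
            have h2 := h (a + y) hy.2 c hc.1 (by
              rw [← hxy]
              abel)
            apply hc.2
            rw [h2, add_zero]
            exact ha)
      have hsub : (A ∪ C.image (fun b => a + b)) + D ⊆ A + B := by
        intro x hx
        obtain ⟨y, hy, z, hz, rfl⟩ := mem_add.1 hx
        rw [hD, mem_filter, not_not] at hz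
        rcases mem_union.1 hy with hy | hy
        · exact add_mem_add hy hz.1
        · obtain ⟨c, hc, rfl⟩ := mem_image.1 hy
          rw [hC, mem_filter] at hc
          have : a + c + z = (a + z) + c := by abel
          rw [this]
          exact add_mem_add hz.2 hc.1
      have h3 := card_le_card hsub
      omega
    · push Not at hc
      have hB1 : B = {0} := by
        apply Subset.antisymm
        · intro b hb
          rw [mem_singleton]
          have hinj : Set.InjOn (fun x => x + b) A := fun x _ y _ hxy => by simpa using hxy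
          have hmaps : Set.MapsTo (fun x => x + b) A A := fun x hx => hc x hx b hb
          have hsurj := surjOn_of_injOn_of_card_le (fun x => x + b) hmaps hinj le_rfl
          obtain ⟨x, hx, hx2⟩ := hsurj (mem_coe.2 hA0)
          exact h x hx b hb hx2
        · rw [singleton_subset_iff]
          exact hB0
      rw [hB1, card_singleton]
      have : A ⊆ A + {0} := by
        rw [add_singleton]
        intro x hx
        exact mem_image.2 ⟨x, hx, add_zero x⟩
      have := card_le_card this
      omega

variable {J : Type*} [DecidableEq J]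

/-- All subsequence sums. -/
def sums (a : J → G) (S : Finset J) : Finset G := S.powerset.image fun T => ∑ i ∈ T, a i

theorem mem_sums {a : J → G} {S : Finset J} {x : G} :
    x ∈ sums a S ↔ ∃ T ⊆ S, ∑ i ∈ T, a i = x := by
  unfold sums
  rw [mem_image]
  constructor
  · rintro ⟨T, hT, rfl⟩
    exact ⟨T, mem_powerset.1 hT, rfl⟩
  · rintro ⟨T, hT, rfl⟩
    exact ⟨T, mem_powerset.2 hT, rfl⟩

/-- No nonempty subsequence has sum zero. -/
def ZeroFree (a : J → G) (S : Finset J) : Prop := ∀ T ⊆ S, T.Nonempty → ∑ i ∈ T, a i ≠ 0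

theorem ZeroFree.mono {a : J → G} {S T : Finset J} (h : ZeroFree a S) (hT : T ⊆ S) :
    ZeroFree a T := fun U hU hne => h U (hU.trans hT) hne

theorem zero_mem_sums (a : J → G) (S : Finset J) : 0 ∈ sums a S :=
  mem_sums.2 ⟨∅, empty_subset _, sum_empty⟩

theorem sums_mono {a : J → G} {S T : Finset J} (h : S ⊆ T) : sums a S ⊆ sums a T := by
  intro x hx
  obtain ⟨U, hU, rfl⟩ := mem_sums.1 hx
  exact mem_sums.2 ⟨U, hU.trans h, rfl⟩

theorem scherk_sums {a : J → G} {S T : Finset J} (hd : Disjoint S T) (h : ZeroFree a (S ∪ T)) :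
    (sums a S).card + (sums a T).card ≤ (sums a (S ∪ T)).card + 1 := by
  have h1 := scherk (sums a T).card (sums a S) (sums a T) rfl (zero_mem_sums a S)
    (zero_mem_sums a T) (by
      intro x hx y hy hxy
      obtain ⟨U, hU, rfl⟩ := mem_sums.1 hx
      obtain ⟨V, hV, rfl⟩ := mem_sums.1 hy
      rw [← sum_union (disjoint_of_subset_left hU (disjoint_of_subset_right hV hd))] at hxy
      by_cases hne : V.Nonempty
      · exfalso
        exact h (U ∪ V) (union_subset_union hU hV) (hne.mono subset_union_right) hxy
      · rw [not_nonempty_iff_eq_empty.1 hne, sum_empty])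
  have h2 : sums a S + sums a T ⊆ sums a (S ∪ T) := by
    intro x hx
    obtain ⟨y, hy, z, hz, rfl⟩ := mem_add.1 hx
    obtain ⟨U, hU, rfl⟩ := mem_sums.1 hy
    obtain ⟨V, hV, rfl⟩ := mem_sums.1 hz
    refine mem_sums.2 ⟨U ∪ V, union_subset_union hU hV, ?_⟩
    exact sum_union (disjoint_of_subset_left hU (disjoint_of_subset_right hV hd))
  have := card_le_card h2
  omega

/-- The sequence is `x i • h` with positive integers `x i` such that all integers between `0` and
the sum of the `x i` are subsequence sums. -/
def Smooth (a : J → G) (S : Finset J) (h : G) (x : J → ℕ) : Prop :=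
  (∀ i ∈ S, 1 ≤ x i ∧ a i = x i • h) ∧ ∀ s ≤ ∑ i ∈ S, x i, ∃ T ⊆ S, ∑ i ∈ T, x i = s

theorem Smooth.sum {a : J → G} {S : Finset J} {h : G} {x : J → ℕ} (hs : Smooth a S h x)
    {T : Finset J} (hT : T ⊆ S) : ∑ i ∈ T, a i = (∑ i ∈ T, x i) • h := by
  rw [sum_smul]
  exact sum_congr rfl fun i hi => (hs.1 i (hT hi)).2

theorem Smooth.card_le {a : J → G} {S : Finset J} {h : G} {x : J → ℕ} (hs : Smooth a S h x) :
    S.card ≤ ∑ i ∈ S, x i := by
  rw [card_eq_sum_ones]
  exact sum_le_sum fun i hi => (hs.1 i hi).1

theorem Smooth.mem {a : J → G} {S : Finset J} {h : G} {x : J → ℕ} (hs : Smooth a S h x)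
    {s : ℕ} (h1 : s ≤ ∑ i ∈ S, x i) : s • h ∈ sums a S := by
  obtain ⟨T, hT, hT2⟩ := hs.2 s h1
  exact mem_sums.2 ⟨T, hT, by rw [hs.sum hT, hT2]⟩

theorem Smooth.ne {a : J → G} {S : Finset J} {h : G} {x : J → ℕ} (hs : Smooth a S h x)
    (hz : ZeroFree a S) {s : ℕ} (h1 : s ≤ ∑ i ∈ S, x i) (h0 : 0 < s) : s • h ≠ 0 := by
  obtain ⟨T, hT, hT2⟩ := hs.2 s h1
  rw [← hT2, ← hs.sum hT]
  apply hz T hT
  rw [nonempty_iff_ne_empty]
  rintro rfl
  rw [sum_empty] at hT2
  omega

theorem Smooth.lt {a : J → G} {S : Finset J} {h : G} {x : J → ℕ} (hs : Smooth a S h x)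
    (hz : ZeroFree a S) (hfin : 0 < addOrderOf h) : ∑ i ∈ S, x i < addOrderOf h := by
  by_contra hc
  exact hs.ne hz (not_lt.1 hc) hfin (addOrderOf_nsmul_eq_zero h)

theorem Smooth.injOn {a : J → G} {S : Finset J} {h : G} {x : J → ℕ} (hs : Smooth a S h x)
    (hz : ZeroFree a S) : Set.InjOn (fun s : ℕ => s • h) (range (∑ i ∈ S, x i + 1)) := by
  have key : ∀ s t : ℕ, s < t → t ≤ ∑ i ∈ S, x i → s • h ≠ t • h := by
    intro s t hst ht he
    apply hs.ne hz (s := t - s) (by omega) (by omega)
    have : t • h = (t - s) • h + s • h := by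
      rw [← add_smul]
      congr 1
      omega
    rw [← he] at this
    simpa using this
  intro s hs2 t ht2 he
  rw [coe_range, Set.mem_Iio] at hs2 ht2
  by_contra hne
  rcases Nat.lt_or_gt_of_ne hne with hlt | hlt
  · exact key s t hlt (by omega) he
  · exact key t s hlt (by omega) he.symm

theorem Smooth.card_sums {a : J → G} {S : Finset J} {h : G} {x : J → ℕ} (hs : Smooth a S h x)
    (hz : ZeroFree a S) : (sums a S).card = ∑ i ∈ S, x i + 1 := by
  have : sums a S = (range (∑ i ∈ S, x i + 1)).image fun s : ℕ => s • h := by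
    ext y
    rw [mem_sums, mem_image]
    constructor
    · rintro ⟨T, hT, rfl⟩
      refine ⟨∑ i ∈ T, x i, ?_, (hs.sum hT).symm⟩
      rw [mem_range]
      have := sum_le_sum_of_subset (f := x) hT
      omega
    · rintro ⟨s, hs2, rfl⟩
      rw [mem_range] at hs2
      exact mem_sums.1 (hs.mem (by omega))
  rw [this, card_image_of_injOn (hs.injOn hz), card_range]

/-- One more term. -/
theorem Smooth.insertOne {a : J → G} {S : Finset J} {h : G} {x : J → ℕ} (hs : Smooth a S h x)
    {i : J} (hi : i ∉ S) {y : ℕ} (h1 : 1 ≤ y) (h2 : y ≤ ∑ i ∈ S, x i + 1) (h3 : a i = y • h) :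
    Smooth a (insert i S) h (Function.update x i y) := by
  have hup : ∀ T : Finset J, i ∉ T → ∑ j ∈ T, Function.update x i y j = ∑ j ∈ T, x j := by
    intro T hT
    apply sum_congr rfl
    intro j hj
    rw [Function.update_of_ne]
    rintro rfl
    exact hT hj
  refine ⟨?_, ?_⟩
  · intro j hj
    rcases mem_insert.1 hj with rfl | hj2
    · rw [Function.update_self]
      exact ⟨h1, h3⟩
    · have : j ≠ i := by
        rintro rfl
        exact hi hj2
      rw [Function.update_of_ne this]
      exact hs.1 j hj2
  · intro s hs2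
    rw [sum_insert hi, Function.update_self, hup S hi] at hs2
    by_cases hle : s ≤ ∑ i ∈ S, x i
    · obtain ⟨T, hT, hT2⟩ := hs.2 s hle
      refine ⟨T, hT.trans (subset_insert _ _), ?_⟩
      rw [hup T fun hc => hi (hT hc)]
      exact hT2
    · obtain ⟨T, hT, hT2⟩ := hs.2 (s - y) (by omega)
      have hiT : i ∉ T := fun hc => hi (hT hc)
      refine ⟨Insert.insert i T, insert_subset_insert _ hT, ?_⟩
      rw [sum_insert hiT, Function.update_self, hup T hiT, hT2]
      omega

theorem Smooth.dichotomy {a : J → G} {S : Finset J} {h : G} {x : J → ℕ} (hs : Smooth a S h x)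
    {i : J} (hi : i ∉ S) (hz : ZeroFree a (insert i S)) :
    (∃ y, 1 ≤ y ∧ y ≤ ∑ i ∈ S, x i ∧ a i = y • h) ∨
      2 * (∑ i ∈ S, x i) + 2 ≤ (sums a (insert i S)).card := by
  have hzS : ZeroFree a S := hz.mono (subset_insert _ _)
  by_cases hd : Disjoint (sums a S) ((sums a S).image fun z => a i + z)
  · right
    have hsub : sums a S ∪ (sums a S).image (fun z => a i + z) ⊆ sums a (insert i S) := by
      intro z hz2
      rcases mem_union.1 hz2 with hz2 | hz2
      · exact sums_mono (subset_insert _ _) hz2
      · obtain ⟨w, hw, rfl⟩ := mem_image.1 hz2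
        obtain ⟨T, hT, rfl⟩ := mem_sums.1 hw
        refine mem_sums.2 ⟨Insert.insert i T, insert_subset_insert _ hT, ?_⟩
        rw [sum_insert fun hc => hi (hT hc)]
    have h1 := card_le_card hsub
    rw [card_union_of_disjoint hd, card_image_of_injective _ (add_right_injective (a i)),
      hs.card_sums hzS] at h1
    omega
  · left
    rw [not_disjoint_iff] at hd
    obtain ⟨z, hz1, hz2⟩ := hd
    obtain ⟨w, hw, rfl⟩ := mem_image.1 hz2
    obtain ⟨T, hT, rfl⟩ := mem_sums.1 hw
    obtain ⟨U, hU, hU2⟩ := mem_sums.1 hz1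
    rw [hs.sum hU, hs.sum hT] at hU2
    have hlT := sum_le_sum_of_subset (f := x) hT
    have hlU := sum_le_sum_of_subset (f := x) hU
    set s := ∑ i ∈ T, x i with hsdef
    set t := ∑ i ∈ U, x i with htdef
    rcases le_or_gt t s with hle | hlt
    · exfalso
      obtain ⟨V, hV, hV2⟩ := hs.2 (s - t) (by omega)
      apply hz (Insert.insert i V) (insert_subset_insert _ hV) (insert_nonempty _ _)
      rw [sum_insert fun hc => hi (hV hc), hs.sum hV, hV2]
      have : s • h = (s - t) • h + t • h := by
        rw [← add_smul]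
        congr 1
        omega
      rw [this, ← add_assoc] at hU2
      simpa using hU2.symm
    · refine ⟨t - s, by omega, by omega, ?_⟩
      have : t • h = (t - s) • h + s • h := by
        rw [← add_smul]
        congr 1
        omega
      rw [this] at hU2
      exact (add_right_cancel hU2).symm

end Pool.Agent.SavChen
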