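import Pool.Agent.SavChen.Basic

/-!
# Long zero-free sequences are smooth
-/

open Finset
open scoped Pointwise

namespace Pool.Agent.SavChen

variable {G : Type*} [AddCommGroup G] [DecidableEq G] {J : Type*} [DecidableEq J]

set_option linter.unusedSectionVars false

theorem sum_erase_mem (a : J → G) (S : Finset J) (g : J) :
    ∑ i ∈ S.erase g, a i ∈ sums a (S.erase g) := mem_sums.2 ⟨_, Subset.rfl, rfl⟩

theorem sum_notMem {a : J → G} {S : Finset J} (hz : ZeroFree a S) {g : J} (hg : g ∈ S) :
    ∑ i ∈ S, a i ∉ sums a (S.erase g) := by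
  intro hc
  obtain ⟨T, hT, hT2⟩ := mem_sums.1 hc
  have hTS : T ⊆ S := hT.trans (erase_subset _ _)
  apply hz (S \ T) sdiff_subset
  · refine ⟨g, mem_sdiff.2 ⟨hg, fun h => ?_⟩⟩
    exact (notMem_erase g S) (hT h)
  · have := sum_sdiff (f := a) hTS
    rw [hT2] at this
    simpa using this

theorem card_erase_lt {a : J → G} {S : Finset J} (hz : ZeroFree a S) {g : J} (hg : g ∈ S) :
    (sums a (S.erase g)).card + 1 ≤ (sums a S).card := by
  have h1 : insert (∑ i ∈ S, a i) (sums a (S.erase g)) ⊆ sums a S := by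
    intro x hx
    rcases mem_insert.1 hx with rfl | hx
    · exact mem_sums.2 ⟨S, Subset.rfl, rfl⟩
    · exact sums_mono (erase_subset _ _) hx
  have h2 := card_le_card h1
  rw [card_insert_of_notMem (sum_notMem hz hg)] at h2
  exact h2

theorem pred {a : J → G} {S : Finset J} (hz : ZeroFree a S) {g : J} (hg : g ∈ S)
    (hc : (sums a S).card ≤ (sums a (S.erase g)).card + 1) {y : G}
    (hy : y ∈ sums a (S.erase g)) (hy0 : y ≠ 0) : y - a g ∈ sums a (S.erase g) := by
  have h1 : insert (∑ i ∈ S, a i) (sums a (S.erase g)) ⊆ sums a S := by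
    intro x hx
    rcases mem_insert.1 hx with rfl | hx
    · exact mem_sums.2 ⟨S, Subset.rfl, rfl⟩
    · exact sums_mono (erase_subset _ _) hx
  have h2 : insert (∑ i ∈ S, a i) (sums a (S.erase g)) = sums a S := by
    apply eq_of_subset_of_card_le h1
    rw [card_insert_of_notMem (sum_notMem hz hg)]
    exact hc
  have hsum : ∑ i ∈ S.erase g, a i + a g = ∑ i ∈ S, a i := sum_erase_add S a hg
  set m := ∑ i ∈ S.erase g, a i with hm
  have hadd : ∀ T ⊆ S.erase g, ∑ i ∈ insert g T, a i = ∑ i ∈ T, a i + a g := by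
    intro T hT
    rw [sum_insert fun h => notMem_erase g S (hT h), add_comm]
  have hins : ∀ T ⊆ S.erase g, insert g T ⊆ S := by
    intro T hT
    exact insert_subset hg (hT.trans (erase_subset _ _))
  have hmaps : Set.MapsTo (fun x => x + a g) ((sums a (S.erase g)).erase m)
      ((sums a (S.erase g)).erase 0) := by
    intro x hx
    rw [mem_coe, mem_erase] at hx ⊢
    obtain ⟨hx1, hx2⟩ := hx
    obtain ⟨T, hT, rfl⟩ := mem_sums.1 hx2
    constructor
    · show ∑ i ∈ T, a i + a g ≠ 0
      rw [← hadd T hT]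
      exact hz _ (hins T hT) (insert_nonempty _ _)
    · show ∑ i ∈ T, a i + a g ∈ _
      have h3 : ∑ i ∈ T, a i + a g ∈ sums a S := by
        rw [← hadd T hT]
        exact mem_sums.2 ⟨_, hins T hT, rfl⟩
      rw [← h2, mem_insert] at h3
      rcases h3 with h3 | h3
      · exfalso
        rw [← hsum] at h3
        exact hx1 (add_right_cancel h3)
      · exact h3
  have hinj : Set.InjOn (fun x => x + a g) ((sums a (S.erase g)).erase m) :=
    fun x _ y _ hxy => by simpa using hxy
  have hcard : ((sums a (S.erase g)).erase 0).card ≤ ((sums a (S.erase g)).erase m).card := by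
    rw [card_erase_of_mem (zero_mem_sums a _), card_erase_of_mem (sum_erase_mem a S g)]
  have hsurj := surjOn_of_injOn_of_card_le (fun x => x + a g) hmaps hinj hcard
  obtain ⟨x, hx, hx2⟩ := hsurj (mem_coe.2 (mem_erase.2 ⟨hy0, hy⟩))
  have hx3 : x + a g = y := hx2
  rw [← hx3, add_sub_cancel_right]
  exact (mem_erase.1 (mem_coe.1 hx)).2

theorem no_two {a : J → G} {S : Finset J} (hz : ZeroFree a S) (h2 : 2 ≤ S.card) {g : J}
    (hg : g ∈ S) (hc : (sums a S).card ≤ (sums a (S.erase g)).card + 1) : a g + a g ≠ 0 := by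
  intro h0
  have hsum : ∑ i ∈ S.erase g, a i + a g = ∑ i ∈ S, a i := sum_erase_add S a hg
  have hne : (S.erase g).Nonempty := by
    rw [← card_pos, card_erase_of_mem hg]
    omega
  have h3 := pred hz hg hc (sum_erase_mem a S g) (hz _ (erase_subset _ _) hne)
  apply sum_notMem hz hg
  rw [← hsum]
  have : ∑ i ∈ S.erase g, a i + a g = ∑ i ∈ S.erase g, a i - a g := by
    rw [sub_eq_add_neg, ← eq_neg_of_add_eq_zero_left h0]
  rw [this]
  exact h3

theorem rel {a : J → G} {S : Finset J} (hz : ZeroFree a S) {g : J} (hg : g ∈ S)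
    (hc : (sums a S).card ≤ (sums a (S.erase g)).card + 1) {i : J} (hi : i ∈ S)
    (hne : a i ≠ a g) : ∃ R ⊆ S.erase g, (∀ j ∈ R, a j ≠ a i) ∧ a i = a g + ∑ j ∈ R, a j := by
  have hig : i ≠ g := by
    rintro rfl
    exact hne rfl
  have h1 : a i ∈ sums a (S.erase g) :=
    mem_sums.2 ⟨{i}, singleton_subset_iff.2 (mem_erase.2 ⟨hig, hi⟩), sum_singleton _ _⟩
  have h0 : a i ≠ 0 := by
    have := hz {i} (singleton_subset_iff.2 hi) (singleton_nonempty _)
    rwa [sum_singleton] at this
  obtain ⟨R, hR, hR2⟩ := mem_sums.1 (pred hz hg hc h1 h0)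
  refine ⟨R, hR, ?_, ?_⟩
  · intro j hj hji
    have hgR : g ∉ R.erase j := fun h => notMem_erase g S (hR (mem_of_mem_erase h))
    apply hz (insert g (R.erase j)) (insert_subset hg
      ((erase_subset _ _).trans (hR.trans (erase_subset _ _)))) (insert_nonempty _ _)
    rw [sum_insert hgR]
    have := sum_erase_add R a hj
    rw [hR2, hji] at this
    have h3 : ∑ i ∈ R.erase j, a i = - a g := by
      have h4 : ∑ i ∈ R.erase j, a i = a i - a g - a i := by
        rw [← this, add_sub_cancel_right]
      rw [h4]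
      abel
    rw [h3, add_neg_cancel]
  · rw [hR2]
    abel

theorem ne_of_sub {p q r : G} (hr : r ≠ 0) (h : p - q = r) : p ≠ q := by
  intro e
  apply hr
  rw [← h, e, sub_self]

theorem seven_aux {x1 x2 x3 x4 x5 x6 x7 : G} {A : Finset G} (h : [x1, x2, x3, x4, x5, x6, x7].Nodup)
    (hA : ∀ x ∈ [x1, x2, x3, x4, x5, x6, x7], x ∈ A) : 7 ≤ A.card := by
  have h1 : [x1, x2, x3, x4, x5, x6, x7].toFinset ⊆ A := by
    intro x hx
    exact hA x (List.mem_toFinset.1 hx)
  have := card_le_card h1
  rw [List.toFinset_card_of_nodup h] at this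
  simpa using this

theorem seven {x y z : G} (hx : x ≠ 0) (hy : y ≠ 0) (hz : z ≠ 0) (hxy : x + y ≠ 0)
    (hxz : x + z ≠ 0) (hyz : y + z ≠ 0) (hxyz : x + y + z ≠ 0) (dxy : x ≠ y) (dxz : x ≠ z)
    (dyz : y ≠ z) (h1 : x + y ≠ z) (h2 : x + z ≠ y) {A : Finset G}
    (hA : ∀ w ∈ [0, x, y, z, x + y, x + z, x + y + z], w ∈ A) : 7 ≤ A.card := by
  apply seven_aux _ hA
  have e1 := sub_ne_zero.2 dxy
  have e2 := sub_ne_zero.2 dxz
  have e3 := sub_ne_zero.2 dyz
  have e4 := sub_ne_zero.2 h1
  have e5 := sub_ne_zero.2 h2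
  simp only [List.nodup_cons, List.mem_cons, List.not_mem_nil, or_false, not_or, List.nodup_nil,
    and_true, not_false_eq_true]
  refine ⟨⟨hx.symm, hy.symm, hz.symm, hxy.symm, hxz.symm, hxyz.symm⟩,
    ⟨dxy, dxz, ?_, ?_, ?_⟩, ⟨dyz, ?_, h2.symm, ?_⟩, ⟨h1.symm, ?_, ?_⟩, ⟨?_, ?_⟩, ?_⟩
  · exact (ne_of_sub hy (by abel)).symm
  · exact (ne_of_sub hz (by abel)).symm
  · exact (ne_of_sub hyz (by abel)).symm
  · exact (ne_of_sub hx (by abel)).symm
  · exact (ne_of_sub hxz (by abel)).symm
  · exact (ne_of_sub hx (by abel)).symm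
  · exact (ne_of_sub hxy (by abel)).symm
  · exact ne_of_sub e3 (by abel)
  · exact (ne_of_sub hz (by abel)).symm
  · exact (ne_of_sub hy (by abel)).symm

theorem seven_all {x y z : G} (hx : x ≠ 0) (hy : y ≠ 0) (hz : z ≠ 0) (hxy : x + y ≠ 0)
    (hxz : x + z ≠ 0) (hyz : y + z ≠ 0) (hxyz : x + y + z ≠ 0) (dxy : x ≠ y) (dxz : x ≠ z)
    (dyz : y ≠ z) (tx : x + x ≠ 0) (ty : y + y ≠ 0) (tz : z + z ≠ 0) {A : Finset G}
    (hA : ∀ w ∈ [0, x, y, z, x + y, x + z, y + z, x + y + z], w ∈ A) : 7 ≤ A.card := by
  by_cases h1 : x + y = z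
  · -- then use z as the first element
    apply seven hz hx hy (by rwa [add_comm]) (by rwa [add_comm]) hxy
      (by
        have : z + x + y = x + y + z := by abel
        rwa [this]) dxz.symm dyz.symm dxy
      (by
        intro h
        apply tx
        have : x + x = z + x - y := by
          rw [← h1]
          abel
        rw [this, h, sub_self])
      (by
        intro h
        apply ty
        have : y + y = z + y - x := by
          rw [← h1]
          abel
        rw [this, h, sub_self])
    intro w hw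
    apply hA
    simp only [List.mem_cons, List.not_mem_nil, or_false] at hw ⊢
    rcases hw with h | h | h | h | h | h | h
    · simp [h]
    · simp [h]
    · simp [h]
    · simp [h]
    · rw [h, add_comm z x]
      simp
    · rw [h, add_comm z y]
      simp
    · have : w = x + y + z := by
        rw [h]
        abel
      simp [this]
  · by_cases h2 : x + z = y
    · apply seven hy hx hz (by rwa [add_comm]) hyz hxz
        (by
          have : y + x + z = x + y + z := by abel
          rwa [this]) dxy.symm dyz dxz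
        (by
          intro h
          apply tx
          have : x + x = y + x - z := by
            rw [← h2]
            abel
          rw [this, h, sub_self])
        (by
          intro h
          apply tz
          have : z + z = y + z - x := by
            rw [← h2]
            abel
          rw [this, h, sub_self])
      intro w hw
      apply hA
      simp only [List.mem_cons, List.not_mem_nil, or_false] at hw ⊢
      rcases hw with h | h | h | h | h | h | h
      · simp [h]
      · simp [h]
      · simp [h]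
      · simp [h]
      · rw [h, add_comm y x]
        simp
      · simp [h]
      · have : w = x + y + z := by
          rw [h]
          abel
        simp [this]
    · apply seven hx hy hz hxy hxz hyz hxyz dxy dxz dyz h1 h2
      intro w hw
      apply hA
      simp only [List.mem_cons, List.not_mem_nil, or_false] at hw ⊢
      tauto

end Pool.Agent.SavChen
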